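import Pool.Agent.T9h42.Van

/-!
# The Dennis trace of invertible matrices over group rings
-/

set_option linter.unusedSectionVars false

namespace Pool.Agent.T9h42

open Finset

noncomputable section

section

variable {G R M ι : Type*} [Group G] [CommRing R] [AddCommGroup M] [Module R M] [Fintype ι]
  [DecidableEq ι]

/-- the coefficient matrices -/
def cf (A : Matrix ι ι (MonoidAlgebra R G)) (g : G) : Matrix ι ι R :=
  Matrix.of fun i j => (A i j).coeff g

open Classical in
/-- a finite set containing the supports of the entries -/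
def spt (A : Matrix ι ι (MonoidAlgebra R G)) : Finset G :=
  Finset.univ.biUnion fun i => Finset.univ.biUnion fun j => (A i j).coeff.support

theorem mem_spt (A : Matrix ι ι (MonoidAlgebra R G)) (i j : ι) (g : G)
    (h : (A i j).coeff g ≠ 0) : g ∈ spt A := by
  unfold spt
  simp only [Finset.mem_biUnion, Finset.mem_univ, true_and, Finsupp.mem_support_iff]
  exact ⟨i, j, h⟩

theorem cf_zero (A : Matrix ι ι (MonoidAlgebra R G)) (g : G) (h : g ∉ spt A) : cf A g = 0 := by
  ext i j
  by_contra hne
  exact h (mem_spt A i j g hne)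

theorem sum_single_coeff (x : MonoidAlgebra R G) (S : Finset G)
    (hx : ∀ g, x.coeff g ≠ 0 → g ∈ S) :
    ∑ g : S, MonoidAlgebra.single (g : G) (x.coeff g) = x := by
  rw [Finset.sum_coe_sort S (fun g => MonoidAlgebra.single g (x.coeff g))]
  conv_rhs => rw [← MonoidAlgebra.sum_coeff_single x]
  rw [Finsupp.sum]
  symm
  apply Finset.sum_subset
  · intro g hg
    exact hx g (by simpa using hg)
  · intro g _ hg
    have : x.coeff g = 0 := by simpa using hg
    rw [this, MonoidAlgebra.single_zero]

/-- entries of an element of the group ring with matrix coefficients -/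
def ent (i j : ι) : MonoidAlgebra (Matrix ι ι R) G →+ MonoidAlgebra R G :=
  evm fun g : G => (MonoidAlgebra.singleAddHom (R := R) g).comp
    (AddMonoidHom.mk' (fun α : Matrix ι ι R => α i j) fun _ _ => rfl)

theorem ent_single (i j : ι) (g : G) (α : Matrix ι ι R) :
    ent i j (MonoidAlgebra.single g α) = MonoidAlgebra.single g (α i j) := by
  unfold ent
  rw [evm_single]
  rfl

theorem ent_coeff (i j : ι) (X : MonoidAlgebra (Matrix ι ι R) G) (g : G) :
    (ent i j X).coeff g = X.coeff g i j := by
  induction X using MonoidAlgebra.induction_linear with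
  | zero => simp
  | add x y hx hy =>
    rw [map_add, MonoidAlgebra.coeff_add, Finsupp.add_apply, hx, hy, MonoidAlgebra.coeff_add,
      Finsupp.add_apply, Matrix.add_apply]
  | single h a =>
    classical
    rw [ent_single, MonoidAlgebra.coeff_single, MonoidAlgebra.coeff_single,
      Finsupp.single_apply, Finsupp.single_apply]
    split_ifs <;> rfl

theorem ent_ext {X Y : MonoidAlgebra (Matrix ι ι R) G} (h : ∀ i j, ent i j X = ent i j Y) :
    X = Y := by
  apply MonoidAlgebra.ext
  ext g i j
  rw [← ent_coeff, ← ent_coeff, h]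

theorem inv1_of (A B : Matrix ι ι (MonoidAlgebra R G)) (hBA : B * A = 1) (S : Finset G)
    (hA : spt A ⊆ S) (hB : spt B ⊆ S) : Inv1 (cf A) (cf B) S := by
  unfold Inv1
  apply ent_ext
  intro i j
  have h1 : ent i j (1 : MonoidAlgebra (Matrix ι ι R) G) = (B * A) i j := by
    rw [hBA, MonoidAlgebra.one_def, ent_single, Matrix.one_apply, Matrix.one_apply]
    split_ifs
    · rfl
    · rw [MonoidAlgebra.single_zero]
  rw [h1, map_sum, Matrix.mul_apply]
  have h2 : ∀ c : S × S, ent i j (MonoidAlgebra.single ((c.1 : G) * c.2)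
      (cf B c.1 * cf A c.2)) = ∑ k, MonoidAlgebra.single (c.1 : G) ((B i k).coeff c.1) *
        MonoidAlgebra.single (c.2 : G) ((A k j).coeff c.2) := by
    intro c
    rw [ent_single, Matrix.mul_apply]
    have h3 : MonoidAlgebra.single ((c.1 : G) * c.2) (∑ k, cf B c.1 i k * cf A c.2 k j) =
        ∑ k, MonoidAlgebra.single ((c.1 : G) * c.2) (cf B c.1 i k * cf A c.2 k j) :=
      map_sum (MonoidAlgebra.singleAddHom (R := R) ((c.1 : G) * c.2)) _ _
    rw [h3]
    refine Finset.sum_congr rfl fun k _ => ?_
    rw [MonoidAlgebra.single_mul_single]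
    rfl
  rw [Finset.sum_congr rfl fun c _ => h2 c, Finset.sum_comm]
  refine Finset.sum_congr rfl fun k _ => ?_
  rw [Fintype.sum_prod_type]
  have h4 := Finset.sum_mul_sum (Finset.univ : Finset S) (Finset.univ : Finset S)
    (fun g => MonoidAlgebra.single (g : G) ((B i k).coeff g))
    (fun g => MonoidAlgebra.single (g : G) ((A k j).coeff g))
  rw [sum_single_coeff _ S fun g hg => hB (mem_spt B i k g hg),
    sum_single_coeff _ S fun g hg => hA (mem_spt A k j g hg)] at h4
  exact h4.symm

/-- the pairing of a function on `G × G` with two matrices -/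
def prg (f : G → G → M) (B A : Matrix ι ι (MonoidAlgebra R G)) : M :=
  ∑ i, ∑ j, (B i j).coeff.sum fun g b => (A j i).coeff.sum fun h a => (b * a) • f g h

open Classical in
theorem prg_eq (f : G → G → M) (B A : Matrix ι ι (MonoidAlgebra R G)) (S : Finset G)
    (hA : spt A ⊆ S) (hB : spt B ⊆ S) :
    prg f B A = ∑ c : S × S, (cf B c.1 * cf A c.2).trace • f c.1 c.2 := by
  have h1 : ∀ c : S × S, (cf B c.1 * cf A c.2).trace • f c.1 c.2 =
      ∑ i, ∑ j, ((B i j).coeff c.1 * (A j i).coeff c.2) • f c.1 c.2 := by
    intro c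
    rw [Matrix.trace, Finset.sum_smul]
    refine Finset.sum_congr rfl fun i _ => ?_
    rw [Matrix.diag_apply, Matrix.mul_apply, Finset.sum_smul]
    rfl
  rw [Finset.sum_congr rfl fun c _ => h1 c, Finset.sum_comm]
  unfold prg
  refine Finset.sum_congr rfl fun i _ => ?_
  rw [Finset.sum_comm]
  refine Finset.sum_congr rfl fun j _ => ?_
  rw [Fintype.sum_prod_type]
  rw [Finset.sum_coe_sort S (fun g => ∑ y : S, ((B i j).coeff g * (A j i).coeff (y : G)) •
    f g (y : G))]
  rw [Finsupp.sum]
  apply Finset.sum_subset_zero_on_sdiff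
  · intro g hg
    exact hB (mem_spt B i j g (by simpa using hg))
  · intro g hg
    rw [Finset.mem_sdiff] at hg
    have : (B i j).coeff g = 0 := by simpa using hg.2
    rw [this]
    simp
  · intro g _
    rw [Finset.sum_coe_sort S (fun y => ((B i j).coeff g * (A j i).coeff y) • f g y)]
    rw [Finsupp.sum]
    apply Finset.sum_subset_zero_on_sdiff
    · intro g hg
      exact hA (mem_spt A j i g (by simpa using hg))
    · intro y hy
      rw [Finset.mem_sdiff] at hy
      have : (A j i).coeff y = 0 := by simpa using hy.2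
      rw [this]
      simp
    · intro y _
      rfl

variable (f : G → G → M) (hf : ∀ x y z, f (x * y) z - f x (y * z) + f (z * x) y = 0)

include hf

open Classical in
theorem prg_sing (htf : ∀ (n : ℕ) (x : M), 0 < n → n • x = 0 → x = 0) {p : ℕ} (hp : p.Prime)
    (hsep : ∀ x : M, (∀ k : ℕ, ∃ y, x = p ^ k • y) → x = 0)
    (hX : ∀ x y, ¬ (0 < orderOf (x * y) ∧ p ∣ orderOf (x * y)) → f x y = 0)
    {A B : Matrix ι ι (MonoidAlgebra R G)} (hAB : A * B = 1) (hBA : B * A = 1) :
    prg f B A = 0 := by
  rw [prg_eq f B A (spt A ∪ spt B) Finset.subset_union_left Finset.subset_union_right]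
  exact van_sing f hf htf hp hsep hX
    (inv1_of A B hBA _ Finset.subset_union_left Finset.subset_union_right)
    (inv1_of B A hAB _ Finset.subset_union_right Finset.subset_union_left)

open Classical in
/-- the version for several primes -/
theorem prg_sing_all (htf : ∀ (n : ℕ) (x : M), 0 < n → n • x = 0 → x = 0)
    (hX : ∀ x y : G, f x y ≠ 0 → 0 < orderOf (x * y) ∧ ∃ p : ℕ, p.Prime ∧ p ∣ orderOf (x * y) ∧
      ∀ m : M, (∀ k : ℕ, ∃ y : M, m = p ^ k • y) → m = 0)
    {A B : Matrix ι ι (MonoidAlgebra R G)} (hAB : A * B = 1) (hBA : B * A = 1) :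
    prg f B A = 0 := by
  let P : ℕ → ℕ → Prop := fun n p => p.Prime ∧ p ∣ n ∧
      ∀ m : M, (∀ k : ℕ, ∃ y : M, m = p ^ k • y) → m = 0
  let q : ℕ → ℕ := fun n => if h : ∃ p, P n p then h.choose else 0
  have hq : ∀ n, (∃ p, P n p) → P n (q n) := by
    intro n h
    show P n (if h : ∃ p, P n p then h.choose else 0)
    rw [dif_pos h]
    exact h.choose_spec
  let F : ℕ → G → G → M := fun p x y => if q (orderOf (x * y)) = p then f x y else 0
  have hord : ∀ x y : G, orderOf (x * y) = orderOf (y * x) := by
    intro x y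
    have h1 : y * x = MulAut.conj y (x * y) := by
      show y * x = y * (x * y) * y⁻¹
      group
    rw [h1]
    exact ((MulAut.conj y).orderOf_eq (x * y)).symm
  have hF : ∀ p, prg (F p) B A = 0 := by
    intro p
    by_cases hp : p.Prime ∧ ∀ m : M, (∀ k : ℕ, ∃ y : M, m = p ^ k • y) → m = 0
    · refine prg_sing (F p) ?_ htf hp.1 hp.2 ?_ hAB hBA
      · intro x y z
        show (if q (orderOf (x * y * z)) = p then f (x * y) z else 0) -
          (if q (orderOf (x * (y * z))) = p then f x (y * z) else 0) +
          (if q (orderOf (z * x * y)) = p then f (z * x) y else 0) = 0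
        have e1 : orderOf (x * (y * z)) = orderOf (x * y * z) := by rw [mul_assoc]
        have e2 : orderOf (z * x * y) = orderOf (x * y * z) := by
          rw [mul_assoc, hord]
        rw [e1, e2]
        split_ifs
        · exact hf x y z
        · simp
      · intro x y hxy
        show (if q (orderOf (x * y)) = p then f x y else 0) = 0
        split_ifs with h
        · by_contra hne
          obtain ⟨h1, h2⟩ := hX x y hne
          apply hxy
          refine ⟨h1, ?_⟩
          have h3 := hq _ h2
          rw [h] at h3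
          exact h3.2.1
        · rfl
    · have hz : F p = fun _ _ => 0 := by
        funext x y
        show (if q (orderOf (x * y)) = p then f x y else 0) = 0
        split_ifs with h
        · by_contra hne
          obtain ⟨h1, h2⟩ := hX x y hne
          have h3 := hq _ h2
          rw [h] at h3
          exact hp ⟨h3.1, h3.2.2⟩
        · rfl
      rw [hz]
      unfold prg
      simp
  obtain ⟨S, hS⟩ : ∃ S, S = spt A ∪ spt B := ⟨_, rfl⟩
  have hA : spt A ⊆ S := by rw [hS]; exact Finset.subset_union_left
  have hB : spt B ⊆ S := by rw [hS]; exact Finset.subset_union_right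
  let T : Finset ℕ := (Finset.univ : Finset (S × S)).image
    fun c => q (orderOf ((c.1 : G) * c.2))
  have h1 : prg f B A = ∑ p ∈ T, prg (F p) B A := by
    rw [Finset.sum_congr rfl fun p _ => prg_eq (F p) B A S hA hB, Finset.sum_comm,
      prg_eq f B A S hA hB]
    refine Finset.sum_congr rfl fun c _ => ?_
    rw [← Finset.smul_sum]
    congr 1
    show f c.1 c.2 = ∑ p ∈ T, if q (orderOf ((c.1 : G) * c.2)) = p then f c.1 c.2 else 0
    rw [Finset.sum_ite_eq, if_pos (Finset.mem_image.2 ⟨c, Finset.mem_univ _, rfl⟩)]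
  rw [h1, Finset.sum_eq_zero fun p _ => hF p]

open Classical in
theorem prg_cong (htf : ∀ (n : ℕ) (x : M), 0 < n → n • x = 0 → x = 0) {p : ℕ} (hp : p.Prime)
    (hsep : ∀ x : M, (∀ k : ℕ, ∃ y, x = p ^ k • y) → x = 0)
    (hX : ∀ x y, ¬ (0 < orderOf (x * y)) → f x y = 0)
    {A B : Matrix ι ι (MonoidAlgebra R G)} (hAB : A * B = 1) (hBA : B * A = 1)
    (hA : ∀ g, g ≠ 1 → ∃ q, cf A g = p • q) (hB : ∀ g, g ≠ 1 → ∃ q, cf B g = p • q) :
    prg f B A = 0 := by
  rw [prg_eq f B A (spt A ∪ spt B) Finset.subset_union_left Finset.subset_union_right]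
  exact van_cong f hf htf hp hsep hX hA hB
    (inv1_of A B hBA _ Finset.subset_union_left Finset.subset_union_right)
    (inv1_of B A hAB _ Finset.subset_union_right Finset.subset_union_left)

end

end

end Pool.Agent.T9h42
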