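import Pool.Agent.T9h42.Pot

/-!
# Hochschild cocycles on groups and cyclic words
-/

namespace Pool.Agent.T9h42

open Finset

section coc

variable {G M : Type*} [Group G] [AddCommGroup M] (f : G → G → M)

/-- the value of `f` on the arrow `y` which starts at `g` and ends at `y g y⁻¹` -/
def ar (y g : G) : M := f (g * y⁻¹) y

variable (hf : ∀ x y z, f (x * y) z - f x (y * z) + f (z * x) y = 0)

include hf

theorem ar_mul (a b g : G) : ar f (b * a) g = ar f a g + ar f b (a * g * a⁻¹) := by
  unfold ar
  have h := hf (g * (b * a)⁻¹) b a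
  have e1 : g * (b * a)⁻¹ * b = g * a⁻¹ := by group
  have e2 : a * (g * (b * a)⁻¹) = a * g * a⁻¹ * b⁻¹ := by group
  rw [e1, e2] at h
  have h2 : f (g * (b * a)⁻¹) (b * a) = f (g * a⁻¹) a + f (a * g * a⁻¹ * b⁻¹) b -
    (f (g * a⁻¹) a - f (g * (b * a)⁻¹) (b * a) + f (a * g * a⁻¹ * b⁻¹) b) := by abel
  rw [h2, h, sub_zero]

theorem ar_one (g : G) : ar f 1 g = 0 := by
  have h := ar_mul f hf 1 1 g
  simp only [mul_one, one_mul, inv_one] at h
  exact left_eq_add.1 h

theorem ar_inv (a g : G) : ar f a⁻¹ (a * g * a⁻¹) = - ar f a g := by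
  have h := ar_mul f hf a a⁻¹ g
  rw [inv_mul_cancel, ar_one f hf] at h
  exact (neg_eq_of_add_eq_zero_right h.symm).symm

theorem ar_pow (r g : G) (hr : r * g * r⁻¹ = g) (n : ℕ) : ar f (r ^ n) g = n • ar f r g := by
  induction n with
  | zero => rw [pow_zero, ar_one f hf, zero_smul]
  | succ n ih => rw [pow_succ, ar_mul f hf, hr, ih, add_smul, one_smul, add_comm]

/-- arrows of finite order do not contribute -/
theorem ar_fin (htf : ∀ (n : ℕ) (x : M), 0 < n → n • x = 0 → x = 0) (r g : G)
    (hr : r * g * r⁻¹ = g) (hfin : 0 < orderOf r) : ar f r g = 0 := by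
  apply htf _ _ hfin
  rw [← ar_pow f hf r g hr, pow_orderOf_eq_one, ar_one f hf]

end coc

section lists

variable {G M : Type*} [Group G] [AddCommGroup M]

/-- rotation of a list by one step -/
def ro {α : Type*} (l : List α) : List α := l.rotate 1

theorem ro_cons {α : Type*} (a : α) (l : List α) : ro (a :: l) = l ++ [a] := by
  unfold ro
  rw [List.rotate_cons_succ, List.rotate_zero]

theorem ro_nil {α : Type*} : ro ([] : List α) = [] := rfl

theorem ro_iter {α : Type*} (i : ℕ) (l : List α) : ro^[i] l = l.rotate i := by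
  induction i with
  | zero => simp
  | succ i ih =>
    rw [Function.iterate_succ_apply', ih]
    unfold ro
    rw [List.rotate_rotate]

theorem ro_length {α : Type*} (l : List α) : (ro l).length = l.length := by
  unfold ro; exact List.length_rotate _ _

theorem ro_per {α : Type*} (l : List α) : ∃ m, 0 < m ∧ ro^[m] l = l := by
  rcases l with _ | ⟨a, l⟩
  · exact ⟨1, one_pos, rfl⟩
  · refine ⟨(a :: l).length, by simp, ?_⟩
    rw [ro_iter, List.rotate_length]

/-- the product of the first `d` letters of the periodic word -/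
def Rp {A : Type*} [Monoid A] : ℕ → List A → A
  | 0, _ => 1
  | d + 1, l => l.headD 1 * Rp d (ro l)

section monoid

variable {A : Type*} [Monoid A]

theorem Rp_add (a b : ℕ) (l : List A) : Rp (a + b) l = Rp a l * Rp b (ro^[a] l) := by
  induction a generalizing l with
  | zero => rw [Nat.zero_add]; simp [Rp]
  | succ a ih =>
    rw [Nat.succ_add]
    show l.headD 1 * Rp (a + b) (ro l) = l.headD 1 * Rp a (ro l) * _
    rw [ih, mul_assoc]
    rfl

theorem Rp_mul (d e : ℕ) (l : List A) (h : ro^[d] l = l) : Rp (d * e) l = Rp d l ^ e := by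
  induction e with
  | zero => rw [Nat.mul_zero, pow_zero]; rfl
  | succ e ih =>
    rw [Nat.mul_succ, Nat.add_comm, Rp_add, h, ih, pow_succ']

theorem Rp_append (l l' : List A) : Rp l.length (l ++ l') = l.prod := by
  induction l generalizing l' with
  | nil => rfl
  | cons g l ih =>
    show ((g :: l) ++ l').headD 1 * Rp l.length (ro ((g :: l) ++ l')) = _
    rw [List.cons_append, ro_cons, List.append_assoc, ih, List.prod_cons]
    rfl

theorem Rp_length (l : List A) : Rp l.length l = l.prod := by
  have := Rp_append l []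
  rwa [List.append_nil] at this

theorem Rp_take (d : ℕ) (l : List A) (hd : d ≤ l.length) : Rp d l = (l.take d).prod := by
  have h := Rp_append (l.take d) (l.drop d)
  rwa [List.take_append_drop, List.length_take, min_eq_left hd] at h

end monoid

theorem ro_prod (l : List G) : (ro l).prod = (l.headD 1)⁻¹ * l.prod * l.headD 1 := by
  rcases l with _ | ⟨g, l⟩
  · simp [ro_nil]
  · rw [ro_cons, List.prod_append, List.prod_cons, List.prod_cons, List.prod_nil]
    show l.prod * (g * 1) = g⁻¹ * (g * l.prod) * g
    group

theorem ro_iter_prod (d : ℕ) (l : List G) :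
    (ro^[d] l).prod = (Rp d l)⁻¹ * l.prod * Rp d l := by
  induction d generalizing l with
  | zero => simp [Rp]
  | succ d ih =>
    rw [Function.iterate_succ_apply, ih, ro_prod]
    show _ = (l.headD 1 * Rp d (ro l))⁻¹ * l.prod * (l.headD 1 * Rp d (ro l))
    group

theorem Rp_root (d : ℕ) (l : List G) (h : ro^[d] l = l) : Rp d l ^ l.length = l.prod ^ d := by
  have h1 : ro^[l.length] l = l := by rw [ro_iter, List.rotate_length]
  rw [← Rp_mul d l.length l h, mul_comm, Rp_mul l.length d l h1, Rp_length]

variable (f : G → G → M)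

/-- the function of which we need a potential -/
def kk (l : List G) : M := ar f (l.headD 1)⁻¹ l.prod

variable (hf : ∀ x y z, f (x * y) z - f x (y * z) + f (z * x) y = 0)

include hf

theorem ps_kk (d : ℕ) (l : List G) : ps ro (kk f) d l = ar f (Rp d l)⁻¹ l.prod := by
  induction d generalizing l with
  | zero =>
    rw [ps_zero]
    show (0 : M) = ar f (1 : G)⁻¹ l.prod
    rw [inv_one, ar_one f hf]
  | succ d ih =>
    rw [ps_succ, ih]
    show ar f (l.headD 1)⁻¹ l.prod + _ = ar f (l.headD 1 * Rp d (ro l))⁻¹ l.prod
    rw [mul_inv_rev, ar_mul f hf, inv_inv, ← ro_prod]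

/-- a potential on the cyclic words with values in `X` -/
theorem exists_pot_list (htf : ∀ (n : ℕ) (x : M), 0 < n → n • x = 0 → x = 0) (X : G → Prop)
    (hX : ∀ x y, ¬ X (x * y) → f x y = 0) (hXc : ∀ a g, X g → X (a * g * a⁻¹))
    (hXf : ∀ g, X g → 0 < orderOf g) :
    ∃ h : List G → M, (∀ l, kk f l = h l - h (ro l)) ∧ ∀ l, ¬ X l.prod → h l = 0 := by
  classical
  have hXo : ∀ y g, ¬ X g → ar f y g = 0 := by
    intro y g hg
    unfold ar
    apply hX
    rwa [inv_mul_cancel_right]
  obtain ⟨h, hh⟩ := exists_pot (ro (α := G)) (ro_per) (kk f) (by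
    intro l d hl
    rw [ps_kk f hf]
    by_cases hXl : X l.prod
    · have h1 : (Rp d l)⁻¹ * l.prod * Rp d l = l.prod := by
        rw [← ro_iter_prod, hl]
      apply ar_fin f hf htf
      · rw [inv_inv]; exact h1
      · rw [orderOf_inv, orderOf_pos_iff]
        rcases l with _ | ⟨g, l⟩
        · rcases d with _ | d
          · exact IsOfFinOrder.one
          · have h2 : ∀ e, Rp e ([] : List G) = 1 := by
              intro e
              induction e with
              | zero => rfl
              | succ e ih =>
                show ([] : List G).headD 1 * Rp e (ro []) = 1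
                rw [ro_nil, ih]; simp
            rw [h2]; exact IsOfFinOrder.one
        · have h2 := Rp_root d (g :: l) hl
          have h3 : IsOfFinOrder ((g :: l).prod) := orderOf_pos_iff.1 (hXf _ hXl)
          have h4 : IsOfFinOrder (Rp d (g :: l) ^ (g :: l).length) := by
            rw [h2]; exact h3.pow
          exact h4.of_pow (by simp)
    · exact hXo _ _ hXl)
  refine ⟨fun l => if X l.prod then h l else 0, fun l => ?_, fun l hl => if_neg hl⟩
  have h1 : X (ro l).prod ↔ X l.prod := by
    rw [ro_prod]
    constructor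
    · intro h
      have := hXc (l.headD 1) _ h
      convert this using 1
      group
    · intro h
      have := hXc (l.headD 1)⁻¹ _ h
      rwa [inv_inv] at this
  show kk f l = (if X l.prod then h l else 0) - (if X (ro l).prod then h (ro l) else 0)
  by_cases hXl : X l.prod
  · rw [if_pos hXl, if_pos (h1.2 hXl), hh l]
  · rw [if_neg hXl, if_neg fun h => hXl (h1.1 h), sub_zero]
    exact hXo _ _ hXl

end lists

end Pool.Agent.T9h42
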