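import Pool.Agent.T9h42.Bridge
import Pool.Agent.Y69.KTr

/-!
# The Dennis trace on `K₁` of a group ring, paired with a Hochschild cocycle
-/

set_option linter.unusedSectionVars false

namespace Pool.Agent.T9h42

open Finset

noncomputable section

section pr

variable {G R M : Type*} [Group G] [CommRing R] [AddCommGroup M] [Module R M]

/-- `r ↦ (s ↦ (r s) x)` -/
def smh (x : M) : R →+ R →+ M :=
  AddMonoidHom.mk' (fun r => AddMonoidHom.mk' (fun s => (r * s) • x)
    (fun s s' => by rw [mul_add, add_smul]))
    (fun r r' => by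
      ext s
      show ((r + r') * s) • x = (r * s) • x + (r' * s) • x
      rw [add_mul, add_smul])

/-- the biadditive extension of a function of two variables -/
def prH (f : G → G → M) : MonoidAlgebra R G →+ MonoidAlgebra R G →+ M :=
  evm fun g : G => AddMonoidHom.mk' (fun r => evm fun h : G => smh (f g h) r)
    (fun r r' => by
      apply AddMonoidHom.ext
      intro y
      induction y using MonoidAlgebra.induction_linear with
      | zero => simp
      | add x y hx hy => rw [map_add, map_add, hx, hy]
      | single h a =>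
        rw [AddMonoidHom.add_apply, evm_single, evm_single, evm_single, map_add]
        rfl)

theorem prH_single (f : G → G → M) (g h : G) (r s : R) :
    prH f (MonoidAlgebra.single g r) (MonoidAlgebra.single h s) = (r * s) • f g h := by
  unfold prH
  rw [evm_single]
  show evm (fun h : G => smh (f g h) r) (MonoidAlgebra.single h s) = _
  rw [evm_single]
  rfl

theorem prH_eq (f : G → G → M) (a b : MonoidAlgebra R G) :
    prH f a b = a.coeff.sum fun g r => b.coeff.sum fun h s => (r * s) • f g h := by
  have h1 : ∀ a b : MonoidAlgebra R G,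
      (a.coeff.sum fun g r => b.coeff.sum fun h s => (r * s) • f g h) =
      prH f (a.coeff.sum fun g r => MonoidAlgebra.single g r)
        (b.coeff.sum fun g r => MonoidAlgebra.single g r) := by
    intro a b
    unfold Finsupp.sum
    rw [map_sum (prH f), AddMonoidHom.finset_sum_apply]
    refine Finset.sum_congr rfl fun g _ => ?_
    rw [map_sum]
    refine Finset.sum_congr rfl fun h _ => ?_
    exact (prH_single f g h _ _).symm
  rw [h1, MonoidAlgebra.sum_coeff_single, MonoidAlgebra.sum_coeff_single]

variable (f : G → G → M) (hf : ∀ x y z, f (x * y) z - f x (y * z) + f (z * x) y = 0)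

include hf

theorem prH_coc (a b c : MonoidAlgebra R G) :
    prH f (a * b) c - prH f a (b * c) + prH f (c * a) b = 0 := by
  induction a using MonoidAlgebra.induction_linear with
  | zero => simp
  | add x y hx hy =>
    rw [add_mul, mul_add, map_add, map_add, map_add, AddMonoidHom.add_apply,
      AddMonoidHom.add_apply, AddMonoidHom.add_apply]
    have h3 := congrArg₂ (· + ·) hx hy
    simp only [add_zero] at h3
    rw [← h3]
    abel
  | single g r =>
    induction b using MonoidAlgebra.induction_linear with
    | zero => simp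
    | add x y hx hy =>
      rw [add_mul, mul_add, map_add, map_add, map_add, AddMonoidHom.add_apply]
      have h3 := congrArg₂ (· + ·) hx hy
      simp only [add_zero] at h3
      rw [← h3]
      abel
    | single h s =>
      induction c using MonoidAlgebra.induction_linear with
      | zero => simp
      | add x y hx hy =>
        rw [add_mul, mul_add, map_add, map_add, map_add, AddMonoidHom.add_apply]
        have h3 := congrArg₂ (· + ·) hx hy
        simp only [add_zero] at h3
        rw [← h3]
        abel
      | single k t =>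
        rw [MonoidAlgebra.single_mul_single, MonoidAlgebra.single_mul_single,
          MonoidAlgebra.single_mul_single, prH_single, prH_single, prH_single]
        have e1 : r * (s * t) = r * s * t := by ring
        have e2 : t * r * s = r * s * t := by ring
        rw [e1, e2, ← smul_sub, ← smul_add, hf, smul_zero]

variable {ι κ μ : Type*} [Fintype ι] [Fintype κ] [Fintype μ]

omit hf in
/-- the pairing for rectangular matrices -/
def prm (f : G → G → M) (B : Matrix ι κ (MonoidAlgebra R G)) (A : Matrix κ ι (MonoidAlgebra R G)) :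
    M := ∑ i, ∑ j, prH f (B i j) (A j i)

omit hf in
theorem prm_add_left (B B' : Matrix ι κ (MonoidAlgebra R G))
    (A : Matrix κ ι (MonoidAlgebra R G)) : prm f (B + B') A = prm f B A + prm f B' A := by
  unfold prm
  simp only [Matrix.add_apply, map_add, AddMonoidHom.add_apply, Finset.sum_add_distrib]

omit hf in
theorem prm_add_right (B : Matrix ι κ (MonoidAlgebra R G))
    (A A' : Matrix κ ι (MonoidAlgebra R G)) : prm f B (A + A') = prm f B A + prm f B A' := by
  unfold prm
  simp only [Matrix.add_apply, map_add, Finset.sum_add_distrib]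

omit hf in
theorem prm_zero_left (A : Matrix κ ι (MonoidAlgebra R G)) :
    prm f (0 : Matrix ι κ (MonoidAlgebra R G)) A = 0 := by
  unfold prm
  simp

theorem prm_coc (X : Matrix ι κ (MonoidAlgebra R G)) (Y : Matrix κ μ (MonoidAlgebra R G))
    (Z : Matrix μ ι (MonoidAlgebra R G)) :
    prm f (X * Y) Z - prm f X (Y * Z) + prm f (Z * X) Y = 0 := by
  have e1 : prm f (X * Y) Z = ∑ i, ∑ j, ∑ k, prH f (X i j * Y j k) (Z k i) := by
    unfold prm
    refine Finset.sum_congr rfl fun i _ => ?_
    rw [Finset.sum_comm]
    refine Finset.sum_congr rfl fun k _ => ?_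
    rw [Matrix.mul_apply, map_sum, AddMonoidHom.finset_sum_apply]
  have e2 : prm f X (Y * Z) = ∑ i, ∑ j, ∑ k, prH f (X i j) (Y j k * Z k i) := by
    unfold prm
    refine Finset.sum_congr rfl fun i _ => ?_
    refine Finset.sum_congr rfl fun j _ => ?_
    rw [Matrix.mul_apply, map_sum]
  have e3 : prm f (Z * X) Y = ∑ i, ∑ j, ∑ k, prH f (Z k i * X i j) (Y j k) := by
    unfold prm
    have h1 : ∀ k j, prH f ((Z * X) k j) (Y j k) = ∑ i, prH f (Z k i * X i j) (Y j k) := by
      intro k j
      rw [Matrix.mul_apply, map_sum, AddMonoidHom.finset_sum_apply]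
    simp only [h1]
    rw [Finset.sum_comm]
    rw [Finset.sum_congr rfl fun j _ => Finset.sum_comm, Finset.sum_comm]
  rw [e1, e2, e3, ← Finset.sum_sub_distrib, ← Finset.sum_add_distrib]
  refine Finset.sum_eq_zero fun i _ => ?_
  rw [← Finset.sum_sub_distrib, ← Finset.sum_add_distrib]
  refine Finset.sum_eq_zero fun j _ => ?_
  rw [← Finset.sum_sub_distrib, ← Finset.sum_add_distrib]
  refine Finset.sum_eq_zero fun k _ => ?_
  exact prH_coc f hf _ _ _

theorem f_one_one : f 1 1 = 0 := by
  have h := hf 1 1 1
  simp only [mul_one] at h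
  rw [sub_self, zero_add] at h
  exact h

theorem prm_idem [DecidableEq ι] (P : Matrix ι ι (MonoidAlgebra R G)) (hP : P * P = P) :
    prm f P P = 0 := by
  have h := prm_coc f hf P P P
  rw [hP, sub_self, zero_add] at h
  exact h

/-- additivity of the Dennis trace -/
theorem prm_mul [DecidableEq ι] {A A' B B' : Matrix ι ι (MonoidAlgebra R G)} (hA : A' * A = 1)
    (hB : B * B' = 1) : prm f (B' * A') (A * B) = prm f A' A + prm f B' B := by
  have h := prm_coc f hf (B' * A') A B
  rw [Matrix.mul_assoc, hA, Matrix.mul_one, ← Matrix.mul_assoc, hB, Matrix.one_mul] at h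
  have h2 : prm f (B' * A') (A * B) = prm f A' A + prm f B' B -
    (prm f B' B - prm f (B' * A') (A * B) + prm f A' A) := by abel
  rw [h2, h, sub_zero]

end pr

section dn

open H970SH H842 Matrix

variable {G R : Type} {M : Type*} [Group G] [CommRing R] [AddCommGroup M] [Module R M]
  (f : G → G → M) (hf : ∀ x y z, f (x * y) z - f x (y * z) + f (z * x) y = 0)

include hf

theorem prm_blocks {ι κ : Type*} [Fintype ι] [Fintype κ] [DecidableEq κ]
    (B A : Matrix ι ι (MonoidAlgebra R G)) (B' A' : Matrix κ κ (MonoidAlgebra R G)) :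
    prm f (fromBlocks B 0 0 B') (fromBlocks A 0 0 A') = prm f B A + prm f B' A' := by
  unfold prm
  rw [Fintype.sum_sum_type]
  congr 1
  · refine Finset.sum_congr rfl fun i _ => ?_
    rw [Fintype.sum_sum_type]
    simp
  · refine Finset.sum_congr rfl fun i _ => ?_
    rw [Fintype.sum_sum_type]
    simp

omit hf in
theorem prm_reindex {ι κ : Type*} [Fintype ι] [Fintype κ] (e : ι ≃ κ)
    (B A : Matrix ι ι (MonoidAlgebra R G)) :
    prm f (Matrix.reindex e e B) (Matrix.reindex e e A) = prm f B A := by
  unfold prm
  rw [← e.sum_comp]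
  refine Finset.sum_congr rfl fun i _ => ?_
  rw [← e.sum_comp]
  refine Finset.sum_congr rfl fun j _ => ?_
  simp

theorem prm_one {κ : Type*} [Fintype κ] [DecidableEq κ] :
    prm f (1 : Matrix κ κ (MonoidAlgebra R G)) 1 = 0 := prm_idem f hf 1 (one_mul 1)

theorem dn_exists : ∃ Φ : K1 (MonoidAlgebra R G) →+ M,
    ∀ n (A : (Matrix (Fin n) (Fin n) (MonoidAlgebra R G))ˣ),
      Φ (K1.mk A) = prm f (A⁻¹).val A.val := by
  apply Pool.Agent.Y69.KTr.K1_lift (R := MonoidAlgebra R G)
    (F := fun n (A : (Matrix (Fin n) (Fin n) (MonoidAlgebra R G))ˣ) => prm f (A⁻¹).val A.val)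
  · intro n A B
    show prm f ((A * B)⁻¹).val (A * B).val = _
    rw [_root_.mul_inv_rev, Units.val_mul, Units.val_mul]
    exact prm_mul f hf A.inv_mul B.mul_inv
  · intro n A N hN
    have h1 : N = reindexUnit finSumFinEquiv (diagU A 1) := by
      apply Units.ext
      rw [hN]
      rfl
    have h2 : (N⁻¹).val = Matrix.reindex finSumFinEquiv finSumFinEquiv
        (Matrix.fromBlocks (A⁻¹).val 0 0 (1 : Matrix (Fin 1) (Fin 1) (MonoidAlgebra R G))) := by
      rw [h1]
      rfl
    rw [h2, hN, prm_reindex, prm_blocks f hf, prm_one f hf, add_zero]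

/-- the value of a cocycle on the Dennis trace -/
def Dn : K1 (MonoidAlgebra R G) →+ M := (dn_exists (R := R) f hf).choose

theorem Dn_mk {n : ℕ} (A : (Matrix (Fin n) (Fin n) (MonoidAlgebra R G))ˣ) :
    Dn f hf (K1.mk A) = prm f (A⁻¹).val A.val := (dn_exists (R := R) f hf).choose_spec n A

theorem Dn_cl {ι : Type} [Fintype ι] [DecidableEq ι] (A : (Matrix ι ι (MonoidAlgebra R G))ˣ) :
    Dn f hf (cl A) = prm f (A⁻¹).val A.val := by
  unfold cl
  rw [Dn_mk]
  have h1 : ((reindexUnit (Fintype.equivFin ι) A)⁻¹).val =
      Matrix.reindex (Fintype.equivFin ι) (Fintype.equivFin ι) (A⁻¹).val := rfl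
  rw [h1, reindexUnit_val, prm_reindex]

omit hf in
theorem prg_prm {ι : Type*} [Fintype ι] (B A : Matrix ι ι (MonoidAlgebra R G)) :
    prg f B A = prm f B A := by
  unfold prg prm
  refine Finset.sum_congr rfl fun i _ => ?_
  refine Finset.sum_congr rfl fun j _ => ?_
  rw [prH_eq]

/-- vanishing at `p`-singular elements -/
theorem Dn_sing (htf : ∀ (n : ℕ) (x : M), 0 < n → n • x = 0 → x = 0) {p : ℕ} (hp : p.Prime)
    (hsep : ∀ x : M, (∀ k : ℕ, ∃ y, x = p ^ k • y) → x = 0)
    (hX : ∀ x y, ¬ (0 < orderOf (x * y) ∧ p ∣ orderOf (x * y)) → f x y = 0)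
    (x : K1 (MonoidAlgebra R G)) : Dn f hf x = 0 := by
  classical
  obtain ⟨n, A, rfl⟩ := K1_exists x
  rw [Dn_cl, ← prg_prm]
  exact prg_sing f hf htf hp hsep hX A.mul_inv A.inv_mul

end dn

end

end Pool.Agent.T9h42
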