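import Mathlib

/-!
# Potentials for functions without holonomy, sums over orbits, cocycles and cyclic words
-/

set_option autoImplicit false

namespace Pool.Agent.T9h42

open Finset

section pot

variable {Ω M : Type*} [AddCommGroup M] (T : Ω → Ω)

/-- partial sums along an orbit -/
def ps (k : Ω → M) (a : ℕ) (t : Ω) : M := ∑ i ∈ range a, k (T^[i] t)

theorem ps_zero (k : Ω → M) (t : Ω) : ps T k 0 t = 0 := by
  unfold ps; simp

theorem ps_succ (k : Ω → M) (a : ℕ) (t : Ω) : ps T k (a + 1) t = k t + ps T k a (T t) := by
  unfold ps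
  rw [Finset.sum_range_succ']
  rw [add_comm]
  congr 1

theorem ps_add (k : Ω → M) (a b : ℕ) (t : Ω) :
    ps T k (a + b) t = ps T k a t + ps T k b (T^[a] t) := by
  unfold ps
  rw [Finset.sum_range_add]
  congr 1
  refine Finset.sum_congr rfl fun i _ => ?_
  rw [← Function.iterate_add_apply, add_comm i a]

/-- A function without holonomy is a coboundary. -/
theorem exists_pot (hT : ∀ t, ∃ m, 0 < m ∧ T^[m] t = t)
    (k : Ω → M) (hk : ∀ t d, T^[d] t = t → ps T k d t = 0) :
    ∃ h : Ω → M, ∀ t, k t = h t - h (T t) := by
  classical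
  have hback : ∀ t j, ∃ j', T^[j'] (T^[j] t) = t := by
    intro t j
    obtain ⟨m, hm, ht⟩ := hT t
    obtain ⟨c, hc⟩ : ∃ c, m * j = j + c := ⟨m * j - j, by
      have : j ≤ m * j := Nat.le_mul_of_pos_left j hm
      omega⟩
    refine ⟨c, ?_⟩
    rw [← Function.iterate_add_apply, add_comm c j, ← hc]
    have h1 : ∀ e, T^[m * e] t = t := by
      intro e
      induction e with
      | zero => rfl
      | succ e ih => rw [Nat.mul_succ, Function.iterate_add_apply, ht, ih]
    exact h1 j
  let s : Setoid Ω :=
    { r := fun t t' => ∃ j, T^[j] t = t'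
      iseqv := ⟨fun t => ⟨0, rfl⟩, fun {t t'} ⟨j, hj⟩ => by
        obtain ⟨j', hj'⟩ := hback t j
        exact ⟨j', by rw [← hj, hj']⟩, fun {a b c} ⟨i, hi⟩ ⟨j, hj⟩ =>
        ⟨j + i, by rw [Function.iterate_add_apply, hi, hj]⟩⟩ }
  let rep : Ω → Ω := fun t => (Quotient.mk s t).out
  have hrep : ∀ t, ∃ j, T^[j] t = rep t := by
    intro t
    have h1 : s.r (rep t) t := Quotient.exact (Quotient.out_eq (Quotient.mk s t))
    exact s.iseqv.symm h1
  have hrepT : ∀ t, rep (T t) = rep t := by
    intro t
    have h1 : Quotient.mk s (T t) = Quotient.mk s t := by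
      apply Quotient.sound
      exact s.iseqv.symm ⟨1, rfl⟩
    exact congrArg Quotient.out h1
  have huniq : ∀ t a b, T^[a] t = T^[b] t → ps T k a t = ps T k b t := by
    have key : ∀ t a c, T^[a] t = T^[a + c] t → ps T k a t = ps T k (a + c) t := by
      intro t a c h
      rw [ps_add, hk (T^[a] t) c, add_zero]
      rw [← Function.iterate_add_apply, add_comm c a, ← h]
    intro t a b h
    rcases Nat.le_total a b with hab | hab
    · obtain ⟨c, rfl⟩ := Nat.exists_eq_add_of_le hab
      exact key t a c h
    · obtain ⟨c, rfl⟩ := Nat.exists_eq_add_of_le hab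
      exact (key t b c h.symm).symm
  choose j hj using hrep
  refine ⟨fun t => ps T k (j t) t, fun t => ?_⟩
  have h1 : ps T k (j t) t = ps T k (j (T t) + 1) t := by
    apply huniq
    rw [hj t, Function.iterate_add_apply]
    show rep t = T^[j (T t)] (T t)
    rw [hj (T t), hrepT]
  show k t = ps T k (j t) t - ps T k (j (T t)) (T t)
  rw [h1, ps_succ]
  abel

end pot

section orb

variable {W M : Type*} [AddCommGroup M]

/-- Sums of invariant functions over the orbits of a `p`-power cyclic group. -/
theorem orb_sum [Fintype W] (T : W → W) (p N K : ℕ) (hp : p.Prime)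
    (hT : ∀ w, T^[p ^ N] w = w) (ψ : W → M) (hψ : ∀ w, ψ (T w) = ψ w)
    (hd : ∀ i < K, ∀ w, T^[p ^ i] w = w → ∃ y, ψ w = p ^ (K - i) • y) :
    ∃ y, ∑ w, ψ w = p ^ K • y := by
  classical
  have hψi : ∀ i w, ψ (T^[i] w) = ψ w := by
    intro i w
    induction i with
    | zero => rfl
    | succ i ih => rw [Function.iterate_succ_apply', hψ, ih]
  have key : ∀ n : ℕ, ∀ S : Finset W, S.card = n → (∀ w ∈ S, T w ∈ S) →
      ∃ y, ∑ w ∈ S, ψ w = p ^ K • y := by
    intro n
    induction n using Nat.strong_induction_on with
    | _ n ih =>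
      intro S hS hTS
      rcases S.eq_empty_or_nonempty with rfl | ⟨w0, hw0⟩
      · exact ⟨0, by simp⟩
      have hper : Function.IsPeriodicPt T (p ^ N) w0 := hT w0
      have hpos : 0 < p ^ N := pow_pos hp.pos _
      have hdpos : 0 < Function.minimalPeriod T w0 := hper.minimalPeriod_pos hpos
      obtain ⟨i, hi, hd'⟩ : ∃ i, i ≤ N ∧ Function.minimalPeriod T w0 = p ^ i := by
        have := hper.minimalPeriod_dvd
        exact (Nat.dvd_prime_pow hp).1 this
      set d := Function.minimalPeriod T w0 with hddef
      have hdp : T^[d] w0 = w0 := Function.isPeriodicPt_minimalPeriod T w0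
      let O : Finset W := (range d).image fun a => T^[a] w0
      have hOsub : O ⊆ S := by
        intro w hw
        obtain ⟨a, _, rfl⟩ := Finset.mem_image.1 hw
        clear hw
        induction a with
        | zero => exact hw0
        | succ a iha =>
          rw [Function.iterate_succ_apply']
          apply hTS
          by_cases ha : a ∈ range d
          · exact iha ha
          · exfalso
            rename_i hh
            rw [Finset.mem_range] at hh ha
            omega
      have hOT : ∀ w, w ∈ O ↔ T w ∈ O := by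
        intro w
        constructor
        · intro hw
          obtain ⟨a, ha, rfl⟩ := Finset.mem_image.1 hw
          rw [Finset.mem_range] at ha
          rw [← Function.iterate_succ_apply' T a w0]
          by_cases h : a + 1 < d
          · exact Finset.mem_image.2 ⟨a + 1, Finset.mem_range.2 h, rfl⟩
          · have h1 : a + 1 = d := by omega
            rw [Nat.succ_eq_add_one, h1, hdp]
            exact Finset.mem_image.2 ⟨0, Finset.mem_range.2 hdpos, rfl⟩
        · intro hw
          obtain ⟨a, ha, hTa⟩ := Finset.mem_image.1 hw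
          have h1 : w = T^[p ^ N - 1] (T w) := by
            have h2 := hT w
            rw [← Nat.succ_pred_eq_of_pos hpos, Nat.succ_eq_add_one,
              Function.iterate_add_apply] at h2
            exact h2.symm
          rw [h1, ← hTa]
          show T^[p ^ N - 1] (T^[a] w0) ∈ O
          rw [← Function.iterate_add_apply]
          have h3 : T^[p ^ N - 1 + a] w0 = T^[(p ^ N - 1 + a) % d] w0 :=
            (Function.iterate_mod_minimalPeriod_eq).symm
          rw [h3]
          exact Finset.mem_image.2 ⟨_, Finset.mem_range.2 (Nat.mod_lt _ hdpos), rfl⟩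
      have hsum : ∑ w ∈ O, ψ w = d • ψ w0 := by
        rw [Finset.sum_image]
        · rw [Finset.sum_congr rfl fun a _ => hψi a w0, Finset.sum_const, Finset.card_range]
        · intro a ha b hb hab
          rw [Finset.mem_coe, Finset.mem_range] at ha hb
          have := Function.iterate_eq_iterate_iff_of_lt_minimalPeriod
            (f := T) (x := w0) ha hb
          exact this.1 hab
      have hrest : ∃ y, ∑ w ∈ S \ O, ψ w = p ^ K • y := by
        refine ih (S \ O).card ?_ (S \ O) rfl ?_
        · rw [← hS]
          apply Finset.card_lt_card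
          refine ⟨Finset.sdiff_subset, fun h => ?_⟩
          have h1 := h hw0
          rw [Finset.mem_sdiff] at h1
          exact h1.2 (Finset.mem_image.2 ⟨0, Finset.mem_range.2 hdpos, rfl⟩)
        · intro w hw
          rw [Finset.mem_sdiff] at hw ⊢
          exact ⟨hTS w hw.1, fun h => hw.2 ((hOT w).2 h)⟩
      obtain ⟨y1, hy1⟩ := hrest
      have h2 : ∃ y, d • ψ w0 = p ^ K • y := by
        rw [hd']
        by_cases hiK : i < K
        · obtain ⟨y, hy⟩ := hd i hiK w0 (by rw [← hd']; exact hdp)
          refine ⟨y, ?_⟩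
          rw [hy, smul_smul, ← pow_add, Nat.add_sub_cancel' hiK.le]
        · obtain ⟨c, rfl⟩ := Nat.exists_eq_add_of_le (not_lt.1 hiK)
          exact ⟨p ^ c • ψ w0, by rw [smul_smul, ← pow_add]⟩
      obtain ⟨y2, hy2⟩ := h2
      refine ⟨y1 + y2, ?_⟩
      rw [← Finset.sum_sdiff hOsub, hsum, hy1, hy2, smul_add]
  exact key _ univ rfl fun w _ => Finset.mem_univ _

end orb

end Pool.Agent.T9h42
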