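import Pool.Agent.T9h42.Words

/-!
# The Dennis trace as a sum over cyclic words
-/

set_option linter.unusedSectionVars false

namespace Pool.Agent.T9h42

open Finset MonoidAlgebra

noncomputable section

section ev

variable {A N M : Type*} [Ring A] [AddCommGroup M]

/-- evaluation of a function on the monoid which takes values in additive maps -/
def evm (Φ : N → A →+ M) : MonoidAlgebra A N →+ M :=
  (Finsupp.liftAddHom Φ).comp (MonoidAlgebra.coeffAddEquiv).toAddMonoidHom

theorem evm_single (Φ : N → A →+ M) (g : N) (a : A) : evm Φ (single g a) = Φ g a := by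
  unfold evm
  rw [AddMonoidHom.comp_apply]
  show Finsupp.liftAddHom Φ (single g a).coeff = _
  rw [MonoidAlgebra.coeff_single, Finsupp.liftAddHom_apply_single]

end ev

section sums

variable {G R M ι : Type*} [Group G] [CommRing R] [AddCommGroup M] [Module R M] [Fintype ι]
  [DecidableEq ι] (u v : G → Matrix ι ι R) (S : Finset G)

/-- the additive map `α ↦ tr(α b) x` -/
def trm (b : Matrix ι ι R) (x : M) : Matrix ι ι R →+ M where
  toFun α := (α * b).trace • x
  map_zero' := by rw [zero_mul, Matrix.trace_zero, zero_smul]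
  map_add' α β := by rw [add_mul, Matrix.trace_add, add_smul]

theorem trm_apply (b : Matrix ι ι R) (x : M) (α : Matrix ι ι R) :
    trm b x α = (α * b).trace • x := rfl

theorem of_pow_ofList (m : ℕ) : FreeMonoid.of (1 : G) ^ m =
    FreeMonoid.ofList (List.replicate m 1) := by
  induction m with
  | zero => rfl
  | succ m ih => rw [pow_succ', ih, List.replicate_succ]; rfl

/-- the product in the group ring with matrix coefficients is `1` -/
def Inv1 : Prop := (∑ c : S × S, single ((c.1 : G) * c.2) (v c.1 * u c.2) :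
  MonoidAlgebra (Matrix ι ι R) G) = 1

/-- the list of a word -/
def wl {m : ℕ} (w : Fin m → S × S) : List (G × G) :=
  List.ofFn fun j => (((w j).1 : G), ((w j).2 : G))

variable {u v S}

theorem sum_src (hE : Inv1 u v S) (m : ℕ) (H : List G → M) :
    ∑ w : Fin m → S × S, co u v (wl S w) • H (sr (wl S w)) =
      (Fintype.card ι : R) • H (List.replicate m 1) := by
  have h1 : (∑ c : S × S, single (FreeMonoid.of ((c.1 : G) * c.2)) (v c.1 * u c.2) :
      MonoidAlgebra (Matrix ι ι R) (FreeMonoid G)) = single (FreeMonoid.of 1) 1 := by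
    have h2 := congrArg (evm (fun g : G => (MonoidAlgebra.singleAddHom (R := Matrix ι ι R)
      (FreeMonoid.of g)))) hE
    rw [map_sum, MonoidAlgebra.one_def, evm_single] at h2
    refine Eq.trans ?_ h2
    refine Finset.sum_congr rfl fun c _ => ?_
    rw [evm_single]
    rfl
  have h3 : evm (fun g : FreeMonoid G => trm (1 : Matrix ι ι R) (H (FreeMonoid.toList g)))
      ((∑ c : S × S, single (FreeMonoid.of ((c.1 : G) * c.2)) (v c.1 * u c.2) :
      MonoidAlgebra (Matrix ι ι R) (FreeMonoid G)) ^ m) = evm (fun g : FreeMonoid G =>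
      trm (1 : Matrix ι ι R) (H (FreeMonoid.toList g))) (single (FreeMonoid.of 1) 1 ^ m) := by
    rw [h1]
  rw [expand, map_sum] at h3
  have h4 : (single (FreeMonoid.of (1 : G)) (1 : Matrix ι ι R)) ^ m =
      single (FreeMonoid.ofList (List.replicate m 1)) 1 := by
    rw [MonoidAlgebra.single_pow, one_pow, of_pow_ofList]
  rw [h4, evm_single] at h3
  have h5 : trm (1 : Matrix ι ι R) (H (FreeMonoid.toList (FreeMonoid.ofList
      (List.replicate m 1)))) 1 = (Fintype.card ι : R) • H (List.replicate m 1) := by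
    rw [trm_apply, mul_one, Matrix.trace_one]
    rfl
  rw [← h5, ← h3]
  refine Finset.sum_congr rfl fun w _ => ?_
  rw [evm_single, trm_apply, mul_one]
  unfold co wl sr
  rw [List.map_ofFn, List.map_ofFn]
  have h6 : ∀ l : List G, (l.map FreeMonoid.of).prod = FreeMonoid.ofList l := by
    intro l
    induction l with
    | nil => rfl
    | cons a l ih => rw [List.map_cons, List.prod_cons, ih]; rfl
  have h7 : (List.ofFn fun j => FreeMonoid.of (((w j).1 : G) * (w j).2)).prod =
      FreeMonoid.ofList (List.ofFn fun j => ((w j).1 : G) * (w j).2) := by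
    rw [← h6, List.map_ofFn]
    rfl
  rw [h7, FreeMonoid.toList_ofList]
  rfl

theorem sum_F0 (hE : Inv1 u v S) (f : G → G → M) (k : ℕ) :
    ∑ w : Fin (k + 1) → S × S, co u v (wl S w) • ar f (la 1 (wl S w)) (sr (wl S w)).prod =
      ∑ c : S × S, (v c.1 * u c.2).trace • f c.1 c.2 := by
  rw [← (Fin.snocEquiv fun _ => S × S).sum_comp, Fintype.sum_prod_type]
  refine Finset.sum_congr rfl fun c _ => ?_
  have h1 : evm (fun g : G => trm (v c.1 * u c.2) (ar f c.2 (g * (c.1 * c.2))))
      ((∑ c : S × S, single ((c.1 : G) * c.2) (v c.1 * u c.2) :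
      MonoidAlgebra (Matrix ι ι R) G) ^ k) = evm (fun g : G =>
      trm (v c.1 * u c.2) (ar f c.2 (g * (c.1 * c.2)))) (1 ^ k) := by
    rw [hE]
  rw [expand, map_sum, one_pow, MonoidAlgebra.one_def, evm_single] at h1
  have h2 : trm (v c.1 * u c.2) (ar f (c.2 : G) (1 * (c.1 * c.2))) 1 =
      (v c.1 * u c.2).trace • f c.1 c.2 := by
    rw [trm_apply]
    unfold ar
    rw [one_mul, one_mul, mul_inv_cancel_right]
  rw [← h2, ← h1]
  refine Finset.sum_congr rfl fun w _ => ?_
  rw [evm_single, trm_apply]
  have h3 : wl S ((Fin.snocEquiv fun _ => S × S) (c, w)) = wl S w ++ [((c.1 : G), (c.2 : G))] := by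
    unfold wl
    rw [List.ofFn_succ', List.concat_eq_append]
    simp [Fin.snocEquiv]
  rw [h3, la_append]
  unfold co sr
  rw [List.map_append, List.map_append, List.prod_append, List.prod_append]
  unfold wl
  rw [List.map_ofFn, List.map_ofFn]
  simp only [List.map_cons, List.map_nil, List.prod_cons, List.prod_nil, mul_one]
  rfl

theorem th_ofFn (k : ℕ) (g : Fin (k + 1) → G × G) (y : G) :
    th y (List.ofFn g) = List.ofFn (Fin.cons (y, (g 0).1)
      (fun j : Fin k => ((g j.castSucc).2, (g j.succ).1)) : Fin (k + 1) → G × G) := by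
  induction k generalizing y with
  | zero =>
    rw [List.ofFn_succ, List.ofFn_succ]
    simp [th]
  | succ k ih =>
    rw [List.ofFn_succ]
    show (y, (g 0).1) :: th (g 0).2 (List.ofFn fun i => g i.succ) = _
    rw [ih, List.ofFn_succ (f := (Fin.cons (y, (g 0).1)
      (fun j : Fin (k + 1) => ((g j.castSucc).2, (g j.succ).1)) : Fin (k + 2) → G × G))]
    congr 1
    congr 1
    funext i
    refine Fin.cases ?_ (fun j => ?_) i
    · simp
    · simp only [Fin.cons_succ]
      rw [Fin.succ_castSucc]

theorem la_ofFn (k : ℕ) (g : Fin (k + 1) → G × G) (y : G) :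
    la y (List.ofFn g) = (g (Fin.last k)).2 := by
  rw [List.ofFn_succ', List.concat_eq_append, la_append]

/-- the shift by a half letter -/
def sh {α : Type*} {k : ℕ} (w : Fin (k + 1) → α × α) : Fin (k + 1) → α × α :=
  Fin.cons ((w (Fin.last k)).2, (w 0).1) (fun j : Fin k => ((w j.castSucc).2, (w j.succ).1))

theorem sh_inj {α : Type*} {k : ℕ} : Function.Injective (sh (α := α) (k := k)) := by
  intro w w' h
  have h0 := congrFun h 0
  have hs := fun j : Fin k => congrFun h j.succ
  simp only [sh, Fin.cons_zero, Fin.cons_succ, Prod.mk.injEq] at h0 hs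
  funext j
  apply Prod.ext
  · refine Fin.cases h0.2 (fun i => (hs i).2) j
  · refine Fin.lastCases h0.1 (fun i => (hs i).1) j

theorem wl_sh {k : ℕ} (w : Fin (k + 1) → S × S) :
    wl S (sh w) = th (la 1 (wl S w)) (wl S w) := by
  unfold wl
  rw [la_ofFn, th_ofFn]
  congr 1
  funext i
  refine Fin.cases ?_ (fun j => ?_) i
  · simp [sh]
  · simp [sh]

theorem sum_tgt (hE : Inv1 v u S) (k : ℕ) (H : List G → M) :
    ∑ w : Fin (k + 1) → S × S, co u v (wl S w) • H (tg (wl S w)) =
      (Fintype.card ι : R) • H (List.replicate (k + 1) 1) := by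
  rw [← sum_src hE (k + 1) H]
  have hb : Function.Bijective (sh (α := S) (k := k)) :=
    Finite.injective_iff_bijective.1 sh_inj
  rw [← hb.sum_comp (fun w => co v u (wl S w) • H (sr (wl S w)))]
  refine Finset.sum_congr rfl fun w _ => ?_
  rw [wl_sh, ← co_th]
  rfl

/-- The Dennis trace as a sum over words. -/
theorem sum_Ft (hE : Inv1 u v S) (hE' : Inv1 v u S) (f : G → G → M) (h : List G → M) (k : ℕ) :
    ∑ w : Fin (k + 1) → S × S, co u v (wl S w) • Ft f h (wl S w) =
      ∑ c : S × S, (v c.1 * u c.2).trace • f c.1 c.2 := by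
  have h1 : ∀ w : Fin (k + 1) → S × S, co u v (wl S w) • Ft f h (wl S w) =
      co u v (wl S w) • ar f (la 1 (wl S w)) (sr (wl S w)).prod +
      co u v (wl S w) • h (tg (wl S w)) - co u v (wl S w) • h (sr (wl S w)) := by
    intro w
    unfold Ft
    rw [smul_sub, smul_add]
  rw [Finset.sum_congr rfl fun w _ => h1 w, Finset.sum_sub_distrib, Finset.sum_add_distrib,
    sum_F0 hE, sum_tgt hE', sum_src hE, add_sub_cancel_right]

/-- rotation of a word -/
def rw1 {α : Type*} {k : ℕ} (w : Fin (k + 1) → α) : Fin (k + 1) → α := fun j => w (j + 1)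

theorem rw1_iter {α : Type*} {k : ℕ} (w : Fin (k + 1) → α) (i : ℕ) :
    rw1^[i] w = fun j => w (j + Fin.ofNat (k + 1) i) := by
  induction i with
  | zero =>
    funext j
    show w j = w (j + 0)
    rw [add_zero]
  | succ i ih =>
    rw [Function.iterate_succ_apply', ih]
    funext j
    show w (j + 1 + Fin.ofNat (k + 1) i) = _
    congr 1
    apply Fin.ext
    simp [Fin.val_add, Fin.ofNat]
    congr 1
    ring

theorem rw1_per {α : Type*} {k : ℕ} (w : Fin (k + 1) → α) : rw1^[k + 1] w = w := by
  rw [rw1_iter]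
  funext j
  congr 1
  apply Fin.ext
  simp [Fin.ofNat]

theorem ofFn_rw1 {α : Type*} {k : ℕ} (w : Fin (k + 1) → α) :
    List.ofFn (rw1 w) = ro (List.ofFn w) := by
  rw [List.ofFn_succ (f := w), ro_cons, List.ofFn_succ', List.concat_eq_append]
  congr 1
  · congr 1
    funext i
    show w (i.castSucc + 1) = w i.succ
    rw [Fin.coeSucc_eq_succ]
  · show [w (Fin.last k + 1)] = _
    rw [Fin.last_add_one]

end sums

end

end Pool.Agent.T9h42
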