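import Pool.Agent.T9h42.Sum

/-!
# Vanishing of the Dennis trace
-/

set_option linter.unusedSectionVars false

namespace Pool.Agent.T9h42

open Finset MonoidAlgebra

noncomputable section

theorem ord_lem {G : Type*} [Group G] {p : ℕ} (hp : p.Prime) (r : G) (n : ℕ)
    (h0 : 0 < orderOf (r ^ p ^ n)) (h1 : p ∣ orderOf (r ^ p ^ n)) :
    0 < orderOf r ∧ p ^ (n + 1) ∣ orderOf r := by
  have hr : 0 < orderOf r := by
    rw [orderOf_pos_iff] at h0 ⊢
    exact h0.of_pow (pow_pos hp.pos n).ne'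
  refine ⟨hr, ?_⟩
  obtain ⟨a, m, hm, ho⟩ := Nat.exists_eq_pow_mul_and_not_dvd hr.ne' p hp.ne_one
  by_cases han : a ≤ n
  · exfalso
    apply hm
    refine h1.trans ?_
    apply orderOf_dvd_of_pow_eq_one
    rw [← pow_mul, ← orderOf_dvd_iff_pow_eq_one, ho]
    exact Nat.mul_dvd_mul_right (pow_dvd_pow p han) m
  · rw [ho]
    exact (pow_dvd_pow p (by omega : n + 1 ≤ a)).trans (Dvd.intro _ rfl)

section

variable {G R M ι : Type*} [Group G] [CommRing R] [AddCommGroup M] [Module R M] [Fintype ι]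
  [DecidableEq ι] {u v : G → Matrix ι ι R} {S : Finset G}

theorem wl_rw1 {k : ℕ} (w : Fin (k + 1) → S × S) (i : ℕ) : wl S (rw1^[i] w) = ro^[i] (wl S w) := by
  induction i with
  | zero => rfl
  | succ i ih =>
    rw [Function.iterate_succ_apply', Function.iterate_succ_apply', ← ih]
    unfold wl
    exact ofFn_rw1 (fun j => ((((rw1^[i] w) j).1 : G), (((rw1^[i] w) j).2 : G)))

theorem map_ro {α β : Type*} (g : α → β) (i : ℕ) (l : List α) :
    (ro^[i] l).map g = ro^[i] (l.map g) := by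
  rw [ro_iter, ro_iter, List.map_rotate]

theorem wl_length {k : ℕ} (w : Fin k → S × S) : (wl S w).length = k := by
  unfold wl; rw [List.length_ofFn]

theorem wl_take {k d : ℕ} (hd : d ≤ k) (w : Fin k → S × S) :
    (wl S w).take d = wl S (fun j : Fin d => w (Fin.castLE hd j)) := by
  unfold wl
  apply List.ext_getElem
  · simp [hd]
  · intro n h1 h2
    simp

variable (f : G → G → M) (hf : ∀ x y z, f (x * y) z - f x (y * z) + f (z * x) y = 0)

include hf

/-- general principle -/
theorem main_sum (htf : ∀ (n : ℕ) (x : M), 0 < n → n • x = 0 → x = 0)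
    (X : G → Prop) (hX : ∀ x y, ¬ X (x * y) → f x y = 0) (hXc : ∀ a g, X g → X (a * g * a⁻¹))
    (hXf : ∀ g, X g → 0 < orderOf g) (hE : Inv1 u v S) (hE' : Inv1 v u S) {p : ℕ} (hp : p.Prime)
    (K N : ℕ)
    (hdiv : ∀ h : List G → M, (∀ l, kk f l = h l - h (ro l)) → (∀ l, ¬ X l.prod → h l = 0) →
      ∀ i < K, ∀ l : List (G × G), l.length = p ^ N → (∀ q ∈ l, q.1 ∈ S ∧ q.2 ∈ S) →
        ro^[p ^ i] l = l → ∃ y, co u v l • Ft f h l = p ^ (K - i) • y) :
    ∃ y, ∑ c : S × S, (v c.1 * u c.2).trace • f c.1 c.2 = p ^ K • y := by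
  obtain ⟨h, hh, hh0⟩ := exists_pot_list f hf htf X hX hXc hXf
  obtain ⟨k, hk⟩ : ∃ k, p ^ N = k + 1 := ⟨p ^ N - 1, (Nat.succ_pred_eq_of_pos
    (pow_pos hp.pos N)).symm⟩
  rw [← sum_Ft hE hE' f h k]
  refine orb_sum (rw1 (α := S × S) (k := k)) p N K hp ?_ _ ?_ ?_
  · intro w
    rw [hk]
    exact rw1_per w
  · intro w
    have h1 : wl S (rw1 w) = ro (wl S w) := wl_rw1 w 1
    rw [h1, co_ro, Ft_ro f h hf hh]
  · intro i hi w hw
    refine hdiv h hh hh0 i hi (wl S w) (by rw [wl_length, hk]) ?_ ?_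
    · intro q hq
      unfold wl at hq
      rw [List.mem_ofFn] at hq
      obtain ⟨j, rfl⟩ := hq
      exact ⟨(w j).1.2, (w j).2.2⟩
    · rw [← wl_rw1, hw]

theorem Ft_zero (X : G → Prop) (hX : ∀ x y, ¬ X (x * y) → f x y = 0)
    (hXc : ∀ a g, X g → X (a * g * a⁻¹)) (h : List G → M) (hh0 : ∀ l, ¬ X l.prod → h l = 0)
    (l : List (G × G)) (hl : ¬ X (sr l).prod) : Ft f h l = 0 := by
  unfold Ft
  have h1 : ¬ X (tg l).prod := by
    rw [tg_prod]
    intro h2
    apply hl
    have := hXc (la 1 l)⁻¹ _ h2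
    convert this using 1
    group
  have h3 : ar f (la 1 l) (sr l).prod = 0 := by
    unfold ar
    apply hX
    rwa [inv_mul_cancel_right]
  rw [h3, hh0 _ h1, hh0 _ hl, add_zero, sub_zero]

/-- **Vanishing at `p`-singular elements.** -/
theorem van_sing (htf : ∀ (n : ℕ) (x : M), 0 < n → n • x = 0 → x = 0) {p : ℕ} (hp : p.Prime)
    (hsep : ∀ x : M, (∀ k : ℕ, ∃ y, x = p ^ k • y) → x = 0)
    (hX : ∀ x y, ¬ (0 < orderOf (x * y) ∧ p ∣ orderOf (x * y)) → f x y = 0)
    (hE : Inv1 u v S) (hE' : Inv1 v u S) :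
    ∑ c : S × S, (v c.1 * u c.2).trace • f c.1 c.2 = 0 := by
  classical
  apply hsep
  intro K
  obtain ⟨B, hB⟩ : ∃ B : ℕ, B = ∑ i ∈ range K, ∑ w : Fin (p ^ i) → S × S,
    orderOf (sr (wl S w)).prod := ⟨_, rfl⟩
  have hXc : ∀ a g : G, (0 < orderOf g ∧ p ∣ orderOf g) →
      (0 < orderOf (a * g * a⁻¹) ∧ p ∣ orderOf (a * g * a⁻¹)) := by
    intro a g hg
    have : orderOf (a * g * a⁻¹) = orderOf g := (MulAut.conj a).orderOf_eq g
    rw [this]; exact hg
  refine main_sum f hf htf (fun g => 0 < orderOf g ∧ p ∣ orderOf g) hX hXc (fun g hg => hg.1)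
    hE hE' hp K (K + B) ?_
  intro h hh hh0 i hi l hlen hlS hl
  refine ⟨0, ?_⟩
  rw [smul_zero]
  have hne : ¬ (0 < orderOf (sr l).prod ∧ p ∣ orderOf (sr l).prod) := by
    rintro ⟨h1, h2⟩
    have hsl : (sr l).length = p ^ (K + B) := by unfold sr; rw [List.length_map, hlen]
    have hrs : ro^[p ^ i] (sr l) = sr l := by
      unfold sr
      rw [← map_ro, hl]
    have hpow : p ^ (K + B) = p ^ i * p ^ (K + B - i) := by
      rw [← pow_add]
      congr 1
      omega
    have h3 : (sr l).prod = Rp (p ^ i) (sr l) ^ p ^ (K + B - i) := by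
      rw [← Rp_length, hsl, hpow, Rp_mul _ _ _ hrs]
    rw [h3] at h1 h2
    obtain ⟨h4, h5⟩ := ord_lem hp _ _ h1 h2
    have h6 : p ^ i ≤ (sr l).length := by
      rw [hsl]
      exact Nat.pow_le_pow_right hp.pos (by omega)
    have h7 : orderOf (Rp (p ^ i) (sr l)) ≤ B := by
      obtain ⟨w, hw⟩ : ∃ w : Fin (p ^ i) → S × S, l.take (p ^ i) = wl S w := by
        have hlt : (l.take (p ^ i)).length = p ^ i := by
          rw [List.length_take, hlen]
          exact min_eq_left (Nat.pow_le_pow_right hp.pos (by omega))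
        refine ⟨fun j => (⟨((l.take (p ^ i))[j.1]'(by rw [hlt]; exact j.2)).1,
          (hlS _ (List.mem_of_mem_take (List.getElem_mem _))).1⟩,
          ⟨((l.take (p ^ i))[j.1]'(by rw [hlt]; exact j.2)).2,
          (hlS _ (List.mem_of_mem_take (List.getElem_mem _))).2⟩), ?_⟩
        unfold wl
        apply List.ext_getElem
        · rw [List.length_ofFn]; exact hlt
        · intro n hn1 hn2
          rw [List.getElem_ofFn]
      have h8 : Rp (p ^ i) (sr l) = (sr (wl S w)).prod := by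
        rw [Rp_take _ _ h6, ← hw]
        unfold sr
        rw [List.map_take]
      rw [h8, hB]
      refine le_trans ?_ (Finset.single_le_sum
        (f := fun i => ∑ w : Fin (p ^ i) → S × S, orderOf (sr (wl S w)).prod)
        (fun _ _ => Nat.zero_le _) (Finset.mem_range.2 hi))
      exact Finset.single_le_sum
        (f := fun w : Fin (p ^ i) → S × S => orderOf (sr (wl S w)).prod)
        (fun _ _ => Nat.zero_le _) (Finset.mem_univ w)
    have h9 := Nat.le_of_dvd h4 h5
    have h10 : K + B - i + 1 < p ^ (K + B - i + 1) := Nat.lt_pow_self hp.one_lt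
    omega
  rw [Ft_zero f hf _ hX hXc h hh0 l hne, smul_zero]

omit hf [Group G] in
theorem per_getElem {α : Type*} {l : List α} {d : ℕ} (hl : ro^[d] l = l) (n : ℕ)
    (hn : n < l.length) (hd : n % d < l.length) : l[n]'hn = l[n % d]'hd := by
  have h1 : ro^[n] l = ro^[n % d] l := by
    have h2 : Function.IsPeriodicPt ro d l := hl
    exact (h2.iterate_mod_apply n).symm
  rw [ro_iter, ro_iter] at h1
  have h3 := congrArg List.head? h1
  rw [List.head?_rotate hn, List.head?_rotate hd, List.getElem?_eq_getElem hn,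
    List.getElem?_eq_getElem hd] at h3
  exact Option.some.inj h3

/-- **Vanishing for matrices which are constant modulo `p`.** -/
theorem van_cong (htf : ∀ (n : ℕ) (x : M), 0 < n → n • x = 0 → x = 0) {p : ℕ} (hp : p.Prime)
    (hsep : ∀ x : M, (∀ k : ℕ, ∃ y, x = p ^ k • y) → x = 0)
    (hX : ∀ x y, ¬ (0 < orderOf (x * y)) → f x y = 0)
    (hu : ∀ g, g ≠ 1 → ∃ q, u g = p • q) (hv : ∀ g, g ≠ 1 → ∃ q, v g = p • q)
    (hE : Inv1 u v S) (hE' : Inv1 v u S) :
    ∑ c : S × S, (v c.1 * u c.2).trace • f c.1 c.2 = 0 := by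
  classical
  apply hsep
  intro K
  have hXc : ∀ a g : G, 0 < orderOf g → 0 < orderOf (a * g * a⁻¹) := by
    intro a g hg
    have : orderOf (a * g * a⁻¹) = orderOf g := (MulAut.conj a).orderOf_eq g
    rw [this]; exact hg
  refine main_sum f hf htf (fun g => 0 < orderOf g) hX hXc (fun g hg => hg)
    hE hE' hp K K ?_
  intro h hh hh0 i hi l hlen hlS hl
  by_cases hall : ∀ q ∈ l, q = (1, 1)
  · refine ⟨0, ?_⟩
    rw [smul_zero]
    have h1 : l = List.replicate l.length (1, 1) := List.eq_replicate_of_mem hall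
    have h2 : ∀ n : ℕ, Ft f h (List.replicate n ((1 : G), (1 : G))) = 0 := by
      intro n
      have h3 : ∀ n : ℕ, la (1 : G) (List.replicate n (1, 1)) = 1 := by
        intro n
        induction n with
        | zero => rfl
        | succ n ih =>
          rw [List.replicate_succ]
          exact ih
      have h4 : ∀ n : ℕ, th (1 : G) (List.replicate n (1, 1)) = List.replicate n (1, 1) := by
        intro n
        induction n with
        | zero => rfl
        | succ n ih =>
          rw [List.replicate_succ]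
          show _ :: th (1 : G) (List.replicate n (1, 1)) = _
          rw [ih]
      unfold Ft tg sr
      rw [h3, h4, ar_one f hf]
      abel
    rw [h1, h2, smul_zero]
  · push Not at hall
    obtain ⟨q, hq, hq1⟩ := hall
    have hpow : p ^ K = p ^ i * p ^ (K - i) := by
      rw [← pow_add]
      congr 1
      omega
    have hdl : p ^ i ≤ l.length := by
      rw [hlen]
      exact Nat.pow_le_pow_right hp.pos hi.le
    -- a nontrivial letter among the first ones
    obtain ⟨q', hq', hq1'⟩ : ∃ q' ∈ l.take (p ^ i), q' ≠ (1, 1) := by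
      obtain ⟨n, hn, rfl⟩ := List.getElem_of_mem hq
      have hmod : n % p ^ i < p ^ i := Nat.mod_lt _ (pow_pos hp.pos i)
      refine ⟨l[n % p ^ i]'(lt_of_lt_of_le hmod hdl), ?_, ?_⟩
      · rw [List.mem_take_iff_getElem]
        exact ⟨n % p ^ i, by omega, rfl⟩
      · rw [← per_getElem hl n hn]
        exact hq1
    have hlet : ∃ a, v q'.1 * u q'.2 = p • a := by
      by_cases h1 : q'.1 = 1
      · have h2 : q'.2 ≠ 1 := fun h2 => hq1' (Prod.ext h1 h2)
        obtain ⟨a, ha⟩ := hu _ h2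
        exact ⟨v q'.1 * a, by rw [ha, mul_smul_comm]⟩
      · obtain ⟨a, ha⟩ := hv _ h1
        exact ⟨a * u q'.2, by rw [ha, smul_mul_assoc]⟩
    have hprod : ∀ l : List (G × G), q' ∈ l →
        ∃ a, (l.map fun p => v p.1 * u p.2).prod = p • a := by
      intro l
      induction l with
      | nil => intro h; exact absurd h (List.not_mem_nil)
      | cons r l ih =>
        intro h
        rw [List.map_cons, List.prod_cons]
        rcases List.mem_cons.1 h with h | h
        · obtain ⟨a, ha⟩ := hlet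
          rw [← h, ha]
          exact ⟨_, smul_mul_assoc _ _ _⟩
        · obtain ⟨a, ha⟩ := ih h
          rw [ha]
          exact ⟨_, mul_smul_comm _ _ _⟩
    obtain ⟨a, ha⟩ := hprod _ hq'
    have h5 : (l.map fun p => v p.1 * u p.2).prod = p ^ p ^ (K - i) • a ^ p ^ (K - i) := by
      have h6 : ro^[p ^ i] (l.map fun p => v p.1 * u p.2) = l.map fun p => v p.1 * u p.2 := by
        rw [← map_ro, hl]
      rw [← Rp_length, List.length_map, hlen, hpow, Rp_mul _ _ _ h6, Rp_take _ _
        (by rw [List.length_map]; exact hdl), ← List.map_take, ha, smul_pow]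
    have h7 : K - i ≤ p ^ (K - i) := (Nat.lt_pow_self hp.one_lt).le
    refine ⟨(p ^ (p ^ (K - i) - (K - i)) • (a ^ p ^ (K - i)).trace) • Ft f h l, ?_⟩
    unfold co
    rw [h5, Matrix.trace_smul, smul_assoc, smul_assoc, smul_smul, ← pow_add,
      Nat.add_sub_cancel' h7]

end

end

end Pool.Agent.T9h42
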