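import Pool.Agent.T9h42.Coc

/-!
# Sums over cyclic words
-/

namespace Pool.Agent.T9h42

open Finset MonoidAlgebra Matrix

section expand

variable {Λ N A : Type*} [Fintype Λ] [Monoid N] [Ring A]

theorem expand (ν : Λ → N) (a : Λ → A) (k : ℕ) :
    (∑ c, single (ν c) (a c) : MonoidAlgebra A N) ^ k =
      ∑ w : Fin k → Λ, single ((List.ofFn fun j => ν (w j)).prod)
        ((List.ofFn fun j => a (w j)).prod) := by
  induction k with
  | zero =>
    rw [pow_zero, MonoidAlgebra.one_def]
    simp
  | succ k ih =>
    rw [pow_succ', ih, Finset.sum_mul_sum, ← Finset.sum_product', Finset.univ_product_univ]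
    rw [← (Fin.consEquiv fun _ => Λ).sum_comp]
    refine Finset.sum_congr rfl fun x _ => ?_
    rw [single_mul_single]
    simp [List.ofFn_succ, Fin.consEquiv]

end expand

section wordfun

variable {G M : Type*} [Group G] [AddCommGroup M]

/-- the last second letter -/
def la : G → List (G × G) → G
  | y, [] => y
  | _, p :: l => la p.2 l

/-- the pairs `(y_{j-1}, x_j)` -/
def th : G → List (G × G) → List (G × G)
  | _, [] => []
  | y, p :: l => (y, p.1) :: th p.2 l

/-- source -/
def sr (l : List (G × G)) : List G := l.map fun p => p.1 * p.2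

/-- target -/
def tg (l : List (G × G)) : List G := (th (la 1 l) l).map fun p => p.1 * p.2

theorem la_la (y z : G) (l : List (G × G)) : la (la y l) l = la z l ∨ l = [] := by
  cases l with
  | nil => exact Or.inr rfl
  | cons p l => exact Or.inl rfl

theorem la_self (y : G) (l : List (G × G)) : la (la y l) l = la y l := by
  cases l with
  | nil => rfl
  | cons p l => rfl

theorem la_append (y : G) (l : List (G × G)) (p : G × G) : la y (l ++ [p]) = p.2 := by
  induction l generalizing y with
  | nil => rfl
  | cons q l ih => exact ih q.2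

theorem th_append (y : G) (l : List (G × G)) (p : G × G) :
    th y (l ++ [p]) = th y l ++ [(la y l, p.1)] := by
  induction l generalizing y with
  | nil => rfl
  | cons q l ih =>
    show (y, q.1) :: th q.2 (l ++ [p]) = _
    rw [ih]
    rfl

theorem th_prod {R : Type*} [Monoid R] (u v : G → R) (y : G) (l : List (G × G)) :
    ((th y l).map fun p => u p.1 * v p.2).prod * u (la y l) =
      u y * (l.map fun p => v p.1 * u p.2).prod := by
  induction l generalizing y with
  | nil => simp [th, la]
  | cons q l ih =>
    show (((y, q.1) :: th q.2 l).map fun p => u p.1 * v p.2).prod * u (la q.2 l) = _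
    rw [List.map_cons, List.prod_cons, List.map_cons, List.prod_cons, mul_assoc, ih]
    simp only [mul_assoc]

theorem tg_prod (l : List (G × G)) : (tg l).prod = la 1 l * (sr l).prod * (la 1 l)⁻¹ := by
  have h := th_prod (fun g : G => g) (fun g : G => g) (la 1 l) l
  rw [la_self] at h
  exact eq_mul_inv_of_mul_eq h

theorem sr_ro (l : List (G × G)) : sr (ro l) = ro (sr l) := by
  unfold sr ro
  rw [List.map_rotate]

theorem tg_ro (l : List (G × G)) : tg (ro l) = ro (tg l) := by
  cases l with
  | nil => rfl
  | cons p l =>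
    rw [ro_cons]
    unfold tg
    rw [la_append, th_append]
    show _ = ro (((la p.2 l, p.1) :: th p.2 l).map _)
    rw [List.map_cons, ro_cons, List.map_append]
    rfl

variable (f : G → G → M) (h : List G → M)

/-- the invariant cocycle on words -/
def Ft (l : List (G × G)) : M := ar f (la 1 l) (sr l).prod + h (tg l) - h (sr l)

theorem Ft_ro (hf : ∀ x y z, f (x * y) z - f x (y * z) + f (z * x) y = 0)
    (hh : ∀ l, kk f l = h l - h (ro l)) (l : List (G × G)) : Ft f h (ro l) = Ft f h l := by
  cases l with
  | nil => rfl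
  | cons p l =>
    obtain ⟨x, y⟩ := p
    unfold Ft
    rw [sr_ro, tg_ro]
    have h1 : h (ro (tg ((x, y) :: l))) = h (tg ((x, y) :: l)) - kk f (tg ((x, y) :: l)) := by
      rw [hh]; abel
    have h2 : h (ro (sr ((x, y) :: l))) = h (sr ((x, y) :: l)) - kk f (sr ((x, y) :: l)) := by
      rw [hh]; abel
    have h3 : la 1 (ro ((x, y) :: l)) = y := by rw [ro_cons, la_append]
    have h4 : kk f (sr ((x, y) :: l)) = ar f (x * y)⁻¹ (sr ((x, y) :: l)).prod := rfl
    have h5 : kk f (tg ((x, y) :: l)) =
        ar f (la 1 ((x, y) :: l) * x)⁻¹ (la 1 ((x, y) :: l) * (sr ((x, y) :: l)).prod *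
          (la 1 ((x, y) :: l))⁻¹) := by
      rw [← tg_prod]; rfl
    have h6 : (ro (sr ((x, y) :: l))).prod =
        (x * y)⁻¹ * (sr ((x, y) :: l)).prod * ((x * y)⁻¹)⁻¹ := by
      rw [ro_prod, inv_inv]; rfl
    rw [h1, h2, h3, h4, h5, h6]
    generalize la 1 ((x, y) :: l) = z
    generalize (sr ((x, y) :: l)).prod = g
    have h7 := ar_mul f hf (x * y)⁻¹ y g
    have h8 := ar_mul f hf z (z * x)⁻¹ g
    have e7 : y * (x * y)⁻¹ = x⁻¹ := by group
    have e8 : (z * x)⁻¹ * z = x⁻¹ := by group
    rw [e7] at h7
    rw [e8, h7] at h8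
    have h9 : ar f y ((x * y)⁻¹ * g * ((x * y)⁻¹)⁻¹) =
      ar f z g + ar f (z * x)⁻¹ (z * g * z⁻¹) - ar f (x * y)⁻¹ g := by
      rw [← h8]; abel
    rw [h9]
    abel

end wordfun

section coef

variable {G R M ι : Type*} [Group G] [CommRing R] [AddCommGroup M] [Module R M] [Fintype ι]
  [DecidableEq ι] (u v : G → Matrix ι ι R)

/-- the coefficient of a word -/
def co (l : List (G × G)) : R := ((l.map fun p => v p.1 * u p.2).prod).trace

theorem co_ro (l : List (G × G)) : co u v (ro l) = co u v l := by
  cases l with
  | nil => rfl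
  | cons p l =>
    unfold co
    rw [ro_cons, List.map_append, List.prod_append, Matrix.trace_mul_comm, List.map_cons,
      List.prod_cons]
    simp

theorem co_th (l : List (G × G)) :
    (((th (la 1 l) l).map fun p => u p.1 * v p.2).prod).trace = co u v l := by
  rcases List.eq_nil_or_concat l with rfl | ⟨l, p, rfl⟩
  · rfl
  · rw [List.concat_eq_append, la_append, th_append, List.map_append, List.prod_append]
    unfold co
    rw [List.map_append, List.prod_append]
    simp only [List.map_cons, List.map_nil, List.prod_cons, List.prod_nil, mul_one]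
    rw [← mul_assoc, th_prod, mul_assoc, Matrix.trace_mul_comm, mul_assoc]

end coef

end Pool.Agent.T9h42
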